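import Mathlib

set_option autoImplicit false

/-!
# Equicontinuity on a Hartogs figure does not propagate to the polydisk

For all `n ≥ 1` and `0 < r < 1` there is a sequence of holomorphic maps from the unit polydisk of
`ℂⁿ × ℂ` to the complex projective plane (a compact Kähler manifold, with its Fubini-Study distance)
which is equicontinuous on the Hartogs figure `H_n^1(r)` but not on the polydisk.
-/

namespace Pool.Agent.Results.MP_7ec995_an.NotEquicontinuous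

open Set
open scoped LinearAlgebra.Projectivization

/-- `ℂ³` with its standard Hermitian inner product -/
abbrev C3 : Type := EuclideanSpace ℂ (Fin 3)

/-- The complex projective plane `P²(ℂ)`: the complex lines through `0` in `ℂ³`. -/
abbrev P2 : Type := ℙ ℂ C3

/-- The Fubini-Study distance on `P²(ℂ)`: `d([v], [w]) = arccos (|⟨v, w⟩| / (‖v‖ ‖w‖))`
(see `fsDist_mk`). -/
noncomputable def fsDist (p q : P2) : ℝ :=
  Real.arccos (‖inner ℂ p.rep q.rep‖ / (‖p.rep‖ * ‖q.rep‖))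

/-- The unit polydisk `Δ^{n+1}` in `ℂⁿ × ℂ`. -/
def polydisk (n : ℕ) : Set ((Fin n → ℂ) × ℂ) := {p | (∀ j, ‖p.1 j‖ < 1) ∧ ‖p.2‖ < 1}

/-- The Hartogs figure `H_n^1(r) = (Δ^n(1-r) × Δ^1) ∪ (Δ^n × A^1(r,1))` in `ℂⁿ × ℂ`. -/
def hartogs (n : ℕ) (r : ℝ) : Set ((Fin n → ℂ) × ℂ) :=
  {p | (∀ j, ‖p.1 j‖ < 1 - r) ∧ ‖p.2‖ < 1} ∪ {p | (∀ j, ‖p.1 j‖ < 1) ∧ r < ‖p.2‖ ∧ ‖p.2‖ < 1}

/-- `f : U → P²(ℂ)` is holomorphic on the open set `U`: near each point of `U` it is given by
holomorphic homogeneous coordinates without common zero. -/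
def IsHolomorphicOn {n : ℕ} (f : (Fin n → ℂ) × ℂ → P2) (U : Set ((Fin n → ℂ) × ℂ)) : Prop :=
  ∀ p ∈ U, ∃ (V : Set ((Fin n → ℂ) × ℂ)) (h : (Fin n → ℂ) × ℂ → C3), IsOpen V ∧ p ∈ V ∧
    DifferentiableOn ℂ h V ∧ ∀ z ∈ V, ∃ hz : h z ≠ 0, f z = Projectivization.mk ℂ (h z) hz

/-- The family `F` of maps to `P²(ℂ)` is equicontinuous on `U` (for the distance `fsDist`). -/
def IsEquicontinuousOn {n : ℕ} {ι : Type} (F : ι → (Fin n → ℂ) × ℂ → P2)
    (U : Set ((Fin n → ℂ) × ℂ)) : Prop :=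
  ∀ p ∈ U, ∀ ε > 0, ∃ δ > 0, ∀ i, ∀ z ∈ U, ‖z - p‖ < δ → fsDist (F i z) (F i p) < ε

lemma fsDist_mk {v w : C3} (hv : v ≠ 0) (hw : w ≠ 0) :
    fsDist (Projectivization.mk ℂ v hv) (Projectivization.mk ℂ w hw) =
      Real.arccos (‖inner ℂ v w‖ / (‖v‖ * ‖w‖)) := by
  obtain ⟨a, ha⟩ := Projectivization.exists_smul_eq_mk_rep ℂ v hv
  obtain ⟨b, hb⟩ := Projectivization.exists_smul_eq_mk_rep ℂ w hw
  unfold fsDist
  rw [← ha, ← hb]
  congr 1
  have ha0 : (a : ℂ) ≠ 0 := a.ne_zero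
  have hb0 : (b : ℂ) ≠ 0 := b.ne_zero
  have h1 : inner ℂ (a • v) (b • w) = (starRingEnd ℂ) (a : ℂ) * ((b : ℂ) * inner ℂ v w) := by
    rw [Units.smul_def, Units.smul_def, inner_smul_left, inner_smul_right]
  have h2 : ‖a • v‖ = ‖(a : ℂ)‖ * ‖v‖ := by rw [Units.smul_def, norm_smul]
  have h3 : ‖b • w‖ = ‖(b : ℂ)‖ * ‖w‖ := by rw [Units.smul_def, norm_smul]
  rw [h1, h2, h3, norm_mul, norm_mul, RCLike.norm_conj]
  have := norm_pos_iff.2 ha0
  have := norm_pos_iff.2 hb0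
  have := norm_pos_iff.2 hv
  have := norm_pos_iff.2 hw
  field_simp

/-- the elementary estimate for the angle -/
lemma angle_est {v w : C3} (hv : v ≠ 0) (hw : w ≠ 0) :
    1 - (‖v - w‖ / ‖v‖) ^ 2 ≤ ‖inner ℂ v w‖ / (‖v‖ * ‖w‖) := by
  have hv' := norm_pos_iff.2 hv
  have hw' := norm_pos_iff.2 hw
  have h1 : ‖v - w‖ ^ 2 = ‖v‖ ^ 2 - 2 * RCLike.re (inner ℂ v w) + ‖w‖ ^ 2 :=
    norm_sub_sq (𝕜 := ℂ) v w
  have h2 : RCLike.re (inner ℂ v w) ≤ ‖inner ℂ v w‖ := RCLike.re_le_norm _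
  have h3 : ‖inner ℂ v w‖ ≤ ‖v‖ * ‖w‖ := norm_inner_le_norm v w
  set c := ‖inner ℂ v w‖ / (‖v‖ * ‖w‖) with hc
  have hc0 : 0 ≤ c := by positivity
  have hc1 : c ≤ 1 := (div_le_one (by positivity)).2 h3
  have h4 : ‖inner ℂ v w‖ = c * (‖v‖ * ‖w‖) := by
    rw [hc, div_mul_cancel₀]; positivity
  have h5 : 1 - (‖v - w‖ / ‖v‖) ^ 2 ≤ c ^ 2 := by
    rw [div_pow, sub_le_iff_le_add, ← sub_le_iff_le_add', le_div_iff₀ (by positivity)]
    rw [h4] at h2
    nlinarith [sq_nonneg (c * ‖v‖ - ‖w‖)]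
  have h6 : c ^ 2 ≤ c := by nlinarith
  linarith

section fam

variable {n : ℕ}

/-- homogeneous coordinates of the maps -/
noncomputable def lift (j : Fin n) (a t : ℝ) (p : (Fin n → ℂ) × ℂ) : C3 :=
  !₂[p.1 j - (a : ℂ), p.2, (t : ℂ)]

lemma lift_ne {j : Fin n} {a t : ℝ} (ht : t ≠ 0) (p : (Fin n → ℂ) × ℂ) : lift j a t p ≠ 0 := by
  intro h
  have := congrArg (fun v : C3 => v 2) h
  simp [lift] at this
  exact ht this

/-- the sequence of maps `f_k(z, w) = [z_j - a : w : 1/(k+1)]` -/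
noncomputable def fam (j : Fin n) (a : ℝ) (k : ℕ) (p : (Fin n → ℂ) × ℂ) : P2 :=
  Projectivization.mk ℂ (lift j a (1 / ((k : ℝ) + 1)) p) (lift_ne (by positivity) p)

lemma lift_sub_norm (j : Fin n) (a t : ℝ) (p q : (Fin n → ℂ) × ℂ) :
    ‖lift j a t p - lift j a t q‖ ≤ 2 * ‖p - q‖ := by
  have h1 : ‖lift j a t p - lift j a t q‖ ^ 2 = ‖p.1 j - q.1 j‖ ^ 2 + ‖p.2 - q.2‖ ^ 2 := by
    rw [EuclideanSpace.norm_sq_eq, Fin.sum_univ_three]
    simp [lift]
  have h2 : ‖p.1 j - q.1 j‖ ≤ ‖p - q‖ :=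
    (norm_le_pi_norm (p.1 - q.1) j).trans (norm_fst_le (p - q))
  have h3 : ‖p.2 - q.2‖ ≤ ‖p - q‖ := norm_snd_le (p - q)
  have h4 := norm_nonneg (p - q)
  have h5 : ‖lift j a t p - lift j a t q‖ ^ 2 ≤ (2 * ‖p - q‖) ^ 2 := by
    rw [h1]
    have := pow_le_pow_left₀ (norm_nonneg _) h2 2
    have := pow_le_pow_left₀ (norm_nonneg _) h3 2
    nlinarith
  exact (pow_le_pow_iff_left₀ (norm_nonneg _) (by positivity) (by norm_num)).1 h5

lemma le_lift_norm (j : Fin n) (a t : ℝ) (p : (Fin n → ℂ) × ℂ) :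
    ‖p.1 j - (a : ℂ)‖ ≤ ‖lift j a t p‖ ∧ ‖p.2‖ ≤ ‖lift j a t p‖ := by
  constructor
  · exact PiLp.norm_apply_le (lift j a t p) 0
  · exact PiLp.norm_apply_le (lift j a t p) 1

lemma lift_lower {j : Fin n} {r t : ℝ} (hr0 : 0 < r) {p : (Fin n → ℂ) × ℂ}
    (hp : p ∈ hartogs n r) : r / 2 ≤ ‖lift j (1 - r / 2) t p‖ := by
  obtain ⟨h1, h2⟩ := le_lift_norm j (1 - r / 2) t p
  rcases hp with hp | hp
  · refine le_trans ?_ h1
    have h3 := hp.1 j
    have h4 := norm_sub_norm_le ((1 - r / 2 : ℝ) : ℂ) (p.1 j)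
    rw [norm_sub_rev] at h4
    have h5 : 1 - r / 2 ≤ ‖((1 - r / 2 : ℝ) : ℂ)‖ := by
      rw [Complex.norm_real]; exact le_abs_self _
    linarith
  · refine le_trans ?_ h2
    linarith [hp.2.1]

lemma fam_hol (j : Fin n) (a : ℝ) (k : ℕ) (U : Set ((Fin n → ℂ) × ℂ)) :
    IsHolomorphicOn (fam j a k) U := by
  intro p _
  refine ⟨univ, lift j a (1 / ((k : ℝ) + 1)), isOpen_univ, mem_univ _, ?_, ?_⟩
  · apply Differentiable.differentiableOn
    have : Differentiable ℂ fun p : (Fin n → ℂ) × ℂ =>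
        (WithLp.toLp 2 (![p.1 j - (a : ℂ), p.2, ((1 / ((k : ℝ) + 1) : ℝ) : ℂ)]) : C3) := by
      rw [differentiable_euclidean]
      intro i
      fin_cases i
      · simp; fun_prop
      · simp
      · simp
    exact this
  · intro z _
    exact ⟨lift_ne (by positivity) z, rfl⟩

end fam

theorem result : ∀ n : ℕ, 1 ≤ n → ∀ r : ℝ, 0 < r → r < 1 →
    ∃ F : ℕ → (Fin n → ℂ) × ℂ → P2, (∀ k, IsHolomorphicOn (F k) (polydisk n)) ∧
      IsEquicontinuousOn F (hartogs n r) ∧ ¬ IsEquicontinuousOn F (polydisk n) := by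
  intro n hn r hr0 hr1
  set j : Fin n := ⟨0, hn⟩ with hj
  set a : ℝ := 1 - r / 2 with ha
  refine ⟨fam j a, fun k => fam_hol j a k _, ?_, ?_⟩
  · intro p hp ε hε
    have hcont : Filter.Tendsto Real.arccos (nhds 1) (nhds 0) := by
      have := Real.continuous_arccos.tendsto 1
      rwa [Real.arccos_one] at this
    obtain ⟨η, hη, hball⟩ := Metric.eventually_nhds_iff.1 (hcont.eventually (gt_mem_nhds hε))
    obtain ⟨δ, hδ, hδη⟩ : ∃ δ > 0, (δ * (4 / r)) ^ 2 < η := by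
      refine ⟨r / 4 * (Real.sqrt η / 2), by positivity, ?_⟩
      have h1 : r / 4 * (Real.sqrt η / 2) * (4 / r) = Real.sqrt η / 2 := by field_simp
      rw [h1, div_pow, Real.sq_sqrt hη.le]
      linarith
    refine ⟨δ, hδ, fun k z hz hzp => ?_⟩
    unfold fam
    rw [fsDist_mk]
    set t : ℝ := 1 / ((k : ℝ) + 1) with ht
    have ht0 : t ≠ 0 := by positivity
    have h1 := angle_est (lift_ne (j := j) (a := a) ht0 z) (lift_ne (j := j) (a := a) ht0 p)
    have h2 := lift_lower (j := j) (t := t) hr0 hz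
    have h3 := lift_sub_norm j a t z p
    have h4 : ‖lift j a t z - lift j a t p‖ / ‖lift j a t z‖ ≤ δ * (4 / r) := by
      rw [div_le_iff₀ (by linarith)]
      calc ‖lift j a t z - lift j a t p‖ ≤ 2 * δ := by linarith
        _ = δ * (4 / r) * (r / 2) := by field_simp; ring
        _ ≤ δ * (4 / r) * ‖lift j a t z‖ := by gcongr
    have h5 : (‖lift j a t z - lift j a t p‖ / ‖lift j a t z‖) ^ 2 < η :=
      lt_of_le_of_lt (by gcongr) hδη
    apply hball
    have h6 : ‖inner ℂ (lift j a t z) (lift j a t p)‖ /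
        (‖lift j a t z‖ * ‖lift j a t p‖) ≤ 1 :=
      div_le_one_of_le₀ (norm_inner_le_norm _ _) (by positivity)
    rw [Real.dist_eq, abs_sub_lt_iff]
    constructor <;> linarith
  · intro hcon
    set p : (Fin n → ℂ) × ℂ := (Pi.single j (a : ℂ), 0) with hp
    have ha0 : 0 < a := by linarith
    have hpm : p ∈ polydisk n := by
      refine ⟨fun i => ?_, by simp [hp]⟩
      by_cases hi : i = j
      · subst hi
        simp only [hp, Pi.single_eq_same, Complex.norm_real, Real.norm_of_nonneg ha0.le]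
        linarith
      · simp [hp, Pi.single_eq_of_ne hi]
    obtain ⟨δ, hδ, hF⟩ := hcon p hpm 1 one_pos
    set s : ℝ := min (δ / 2) (r / 4) with hs
    have hs0 : 0 < s := lt_min (by linarith) (by linarith)
    set z : (Fin n → ℂ) × ℂ := (Pi.single j ((a + s : ℝ) : ℂ), 0) with hz
    have hzm : z ∈ polydisk n := by
      refine ⟨fun i => ?_, by simp [hz]⟩
      by_cases hi : i = j
      · subst hi
        simp only [hz, Pi.single_eq_same, Complex.norm_real]
        rw [Real.norm_of_nonneg (by positivity)]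
        have := min_le_right (δ / 2) (r / 4)
        linarith
      · simp [hz, Pi.single_eq_of_ne hi]
    have hzp : ‖z - p‖ < δ := by
      have h1 : z - p = (Pi.single j (s : ℂ), 0) := by
        simp only [hz, hp, Prod.mk_sub_mk, sub_zero, ← Pi.single_sub]
        congr 2
        push_cast
        ring
      rw [h1, Prod.norm_def]
      simp only [norm_zero]
      rw [max_lt_iff]
      refine ⟨?_, hδ⟩
      rw [Pi.norm_single, Complex.norm_real, Real.norm_of_nonneg hs0.le]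
      have := min_le_left (δ / 2) (r / 4)
      linarith
    obtain ⟨k, hk⟩ := exists_nat_one_div_lt (half_pos hs0)
    have h1 := hF k z hzm hzp
    unfold fam at h1
    rw [fsDist_mk] at h1
    set t : ℝ := 1 / ((k : ℝ) + 1) with ht
    have ht0 : 0 < t := by positivity
    have e1 : inner ℂ (lift j a t z) (lift j a t p) = ((t ^ 2 : ℝ) : ℂ) := by
      rw [PiLp.inner_apply, Fin.sum_univ_three]
      simp [lift, hz, hp]
      rw [← Complex.ofReal_pow, sq_abs, Complex.ofReal_pow]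
    have e2 : ‖lift j a t p‖ = t := by
      have : ‖lift j a t p‖ ^ 2 = t ^ 2 := by
        rw [EuclideanSpace.norm_sq_eq, Fin.sum_univ_three]
        simp [lift, hp]
      exact (pow_left_inj₀ (norm_nonneg _) ht0.le (by norm_num)).1 this
    have e3 : s ≤ ‖lift j a t z‖ := by
      refine le_trans ?_ (le_lift_norm j a t z).1
      simp only [hz, Pi.single_eq_same]
      rw [← Complex.ofReal_sub, Complex.norm_real]
      have : a + s - a = s := by ring
      rw [this, Real.norm_of_nonneg hs0.le]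
    have e4 : ‖inner ℂ (lift j a t z) (lift j a t p)‖ /
        (‖lift j a t z‖ * ‖lift j a t p‖) ≤ 1 / 2 := by
      rw [e1, e2, Complex.norm_real, Real.norm_of_nonneg (by positivity), div_le_iff₀ (by
        have := hs0.trans_le e3
        positivity)]
      nlinarith
    have e5 := Real.arccos_le_arccos e4
    have e6 : Real.arccos (1 / 2) = Real.pi / 3 := by
      rw [← Real.cos_pi_div_three, Real.arccos_cos (by positivity) (by
        have := Real.pi_pos
        linarith)]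
    rw [e6] at e5
    have := Real.pi_gt_three
    linarith

end Pool.Agent.Results.MP_7ec995_an.NotEquicontinuous
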